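import Mathlib
import Pool.Agent.W406.TW.Fin2

/-! # Consecutive Frobenius angles of almost all quadratic twists of an elliptic curve -/

namespace Pool.Agent.Results.MP_29be01_nt.ReflectedBoxes

open Pool.Agent.W406.TW

/-- `cons A B R K` is the number of `k < K` for which the angles `ang A B p` of the curve
`y² = x³ + A x + B` at the consecutive primes `p = p_k, ..., p_{k+s-1}` (`p_0 = 2`) lie in
`R 0, ..., R (s - 1)`; `refl J R` is the box `R` with the coordinates in `J` reflected at `1/2`.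
For all but at most `N ^ (1 - c)` of the quadratic twists `y² = x³ + A D² x + B D³`, `|D| ≤ N`, the
counts of all boxes are, for all `K` in the range, the means over the `2 ^ s` reflections of the counts
for the curve itself, with an error `K ^ (1/2 + ε)`. The constants depend only on `s` and `ε`. -/
theorem result (s : ℕ) (ε : ℝ) (hε : 0 < ε) :
    ∃ C c : ℝ, 0 < C ∧ 0 < c ∧ ∃ N₀ : ℕ, ∀ N : ℕ, N₀ ≤ N → ∀ A B : ℤ,
      ({D : ℤ | D ≠ 0 ∧ |D| ≤ N ∧ ∃ K : ℕ, (Real.log N) ^ C ≤ K ∧ (K : ℝ) ≤ (N : ℝ) ^ c ∧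
        ∃ R : Fin s → Set ℝ, (∀ i, (R i).OrdConnected) ∧
          (K : ℝ) ^ (1 / 2 + ε) < |(cons (A * D ^ 2) (B * D ^ 3) R K : ℝ) -
            (1 / 2 ^ s) * ∑ J : Finset (Fin s), (cons A B (refl J R) K : ℝ)|}.ncard : ℝ) ≤
        (N : ℝ) ^ (1 - c) :=
  cons_main s ε hε

end Pool.Agent.Results.MP_29be01_nt.ReflectedBoxes
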